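import Pool.Agent.Q202.Gab.Generic
import Pool.Agent.Q202.Gab.Poly
import Pool.Agent.Q202.Gab.Comb

/-!
# MP_aa6dd4_lc, Q2: support constrained Gabidulin codes exist for every `m ≥ n`

Question Q2 asks whether, whenever the zero sets `Z_1, …, Z_k ⊆ {1, …, n}` satisfy the condition
`(∗)`, some `[n, k]` Gabidulin code over `𝔽_{q^m}` has a generator matrix fulfilling the support
constraint, for every prime power `q` and **every** `m ≥ n`.  The answer is **yes**.

Idea of the proof.  (1) Over a field of characteristic `p` with generic elements the spaces of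
linearised polynomials with the prescribed zeros are independent (a Frobenius-twisted version of
the induction of Lovett and of Yildiz and Hassibi, with a new specialisation `g_j ↦ 0`).
(2) One passes to the **dual** code: it is again a Gabidulin code, with elements `w_1, …, w_n`, and
the rows of the generator matrix become cofactor vectors of the Moore matrix of `w` with only
`n - k` rows.  Their entries have degree at most `q^{n-k-1}` in each `w_j`, so a point outside the
zero set and outside the dependent tuples exists as soon as `k q^{n-k} + q^{n-1} ≤ q^m`, which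
always holds for `m ≥ n`.  (3) One dualises back over `𝔽_{q^m}`.
-/

namespace Pool.Agent.Results.MP_aa6dd4_lc.GabidulinSupport

open Finset Pool.Agent.Q202.Gab

/-- The condition `(∗)`: `|⋂_{i ∈ Ω} Z_i| + |Ω| ≤ k` for every nonempty `Ω ⊆ {1, …, k}`. -/
def CondStar {n k : ℕ} (Z : Fin k → Finset (Fin n)) : Prop :=
  ∀ Ω : Finset (Fin k), Ω.Nonempty →
    (Finset.univ.filter (fun j : Fin n => ∀ i ∈ Ω, j ∈ Z i)).card + Ω.card ≤ k

/-- The evaluation code of the linearised polynomials `∑_{t < k} f_t x^{q^t}` at `g_1, …, g_n`;
for `g_1, …, g_n` linearly independent over `𝔽_q` this is the `[n, k]` Gabidulin code. -/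
def gabidulin {F : Type*} [Field F] (q k : ℕ) {n : ℕ} (g : Fin n → F) : Set (Fin n → F) :=
  {c | ∃ f : Fin k → F, ∀ j, c j = ∑ t : Fin k, f t * g j ^ q ^ (t : ℕ)}

/-- `G` is a generator matrix of the code `C`: its rows form a basis of `C`. -/
def IsGenerator {F : Type*} [Field F] {n k : ℕ} (G : Matrix (Fin k) (Fin n) F)
    (C : Set (Fin n → F)) : Prop :=
  LinearIndependent F (fun i => G i) ∧
    (Submodule.span F (Set.range (fun i => G i)) : Set (Fin n → F)) = C

/-- The support constraint: `G_{ij} = 0` for `j ∈ Z_i`. -/
def Fulfils {F : Type*} [Field F] {n k : ℕ} (Z : Fin k → Finset (Fin n))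
    (G : Matrix (Fin k) (Fin n) F) : Prop :=
  ∀ i, ∀ j ∈ Z i, G i j = 0

/-- **Q2 of MP_aa6dd4_lc has a positive answer.**  Let `K = 𝔽_q` and `F = 𝔽_{q^m}` be finite
fields, `1 ≤ k ≤ n ≤ m`, and let `Z_1, …, Z_k ⊆ {1, …, n}` satisfy `(∗)`.  Then some `[n, k]`
Gabidulin code over `F` has a generator matrix fulfilling the support constraint. -/
theorem result {K F : Type*} [Field K] [Fintype K] [Field F] [Fintype F] [Algebra K F]
    {q m n k : ℕ} (hK : Fintype.card K = q) (hF : Fintype.card F = q ^ m)
    (hk : 1 ≤ k) (hkn : k ≤ n) (hnm : n ≤ m)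
    (Z : Fin k → Finset (Fin n)) (hZ : CondStar Z) :
    ∃ g : Fin n → F, LinearIndependent K g ∧
      ∃ G : Matrix (Fin k) (Fin n) F, IsGenerator G (gabidulin q k g) ∧ Fulfils Z G := by
  classical
  subst hK
  set q := Fintype.card K with hq
  have hq1 : 1 < q := one_lt_q K
  have hfin : n ≤ Module.finrank K F := by
    have h1 := Module.card_eq_pow_finrank (K := K) (V := F)
    rw [hF] at h1
    have h2 : m = Module.finrank K F := Nat.pow_right_injective hq1 h1
    omega
  obtain ⟨r, hr⟩ : ∃ r, k + r = n := ⟨n - k, by omega⟩
  obtain ⟨Z', hZ', hsub, hcard⟩ := exists_ext hkn Z hZ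
  have hcompl : ∀ i, ((Z' i)ᶜ).card = r + 1 := by
    intro i
    rw [Finset.card_compl, hcard, Fintype.card_fin]
    omega
  let e : Fin k → Fin (r + 1) → Fin n := fun i => (Z' i)ᶜ.orderEmbOfFin (hcompl i)
  have he : ∀ i, Function.Injective (e i) := fun i => ((Z' i)ᶜ.orderEmbOfFin (hcompl i)).injective
  have heZ : ∀ i l, e i l ∉ Z' i := by
    intro i l
    exact Finset.mem_compl.1 (Finset.orderEmbOfFin_mem _ (hcompl i) l)
  obtain ⟨L, _, _, w0, hw0, hrow0⟩ := exists_generic K hr (by omega) Z' hZ' hcard e he heZ
  obtain ⟨w, hw, hrow⟩ := exists_point K hr (by omega) e he L w0 hw0 hrow0 F hfin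
  have hroot : HasRoots F q := by
    intro t x
    have hinj : Function.Injective (fr K F t) := fr_injective t
    obtain ⟨y, hy⟩ := (Finite.injective_iff_surjective.1 hinj) x
    exact ⟨y, by rw [← fr_apply]; exact hy⟩
  obtain ⟨g, hg, hpar⟩ := dual_exists K hroot hr w hw
  refine ⟨g, (li_iff K g).1 hg, Matrix.of (fun i => row q w (e i)), ⟨hrow, ?_⟩, ?_⟩
  · -- the code with parity checks `w`
    let T : (Fin n → F) →ₗ[F] (Fin r → F) := LinearMap.pi (fun s =>
      ∑ j : Fin n, (w j ^ q ^ (s : ℕ)) • LinearMap.proj j)
    have hT : ∀ c s, T c s = ∑ j, c j * w j ^ q ^ (s : ℕ) := by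
      intro c s
      simp only [T, LinearMap.pi_apply, LinearMap.sum_apply, LinearMap.smul_apply,
        LinearMap.proj_apply, smul_eq_mul]
      exact Finset.sum_congr rfl (fun j _ => mul_comm _ _)
    let D : Submodule F (Fin n → F) := LinearMap.ker T
    have hD : Module.finrank F D ≤ k := by
      let P : D →ₗ[F] (Fin k → F) := (LinearMap.pi (fun i : Fin k =>
        (LinearMap.proj (⟨r + i, by omega⟩ : Fin n) : (Fin n → F) →ₗ[F] F))).comp D.subtype
      have hP : Function.Injective P := by
        rw [← LinearMap.ker_eq_bot, LinearMap.ker_eq_bot']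
        rintro ⟨c, hc⟩ hPc
        have hc0 : ∀ j : Fin n, r ≤ (j : ℕ) → c j = 0 := by
          intro j hj
          have h1 := congrFun hPc ⟨j - r, by have := j.2; omega⟩
          have h2 : (⟨r + (j - r), by have := j.2; omega⟩ : Fin n) = j := by
            apply Fin.ext
            show r + ((j : ℕ) - r) = j
            omega
          have h3 : c (⟨r + (j - r), by have := j.2; omega⟩ : Fin n) = 0 := h1
          rwa [h2] at h3
        let J : Finset (Fin n) := univ.filter (fun j => (j : ℕ) < r)
        have hJ : J.card = r := by
          have : J = (univ : Finset (Fin r)).map (Fin.castLEEmb (by omega : r ≤ n)) := by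
            ext j
            simp only [J, mem_filter, mem_univ, true_and, mem_map]
            constructor
            · intro hj
              exact ⟨⟨j, hj⟩, by ext; simp⟩
            · rintro ⟨a, rfl⟩
              exact a.2
          rw [this, Finset.card_map]
          simp
        have h1 : ∀ j ∈ J, c j = 0 := by
          apply moore_right K J w (hw.mono K (subset_univ _))
          intro t ht
          rw [hJ] at ht
          have h2 := congrFun (LinearMap.mem_ker.1 hc) ⟨t, ht⟩
          rw [hT, Pi.zero_apply] at h2
          rw [← h2]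
          apply Finset.sum_subset (subset_univ _)
          intro j _ hj
          have : r ≤ (j : ℕ) := by
            by_contra h3
            exact hj (by simp only [J, mem_filter]; exact ⟨mem_univ _, by omega⟩)
          rw [hc0 j this, zero_mul]
        apply Subtype.ext
        funext j
        by_cases hj : (j : ℕ) < r
        · exact h1 j (by simp only [J, mem_filter]; exact ⟨mem_univ _, hj⟩)
        · exact hc0 j (by omega)
      have h1 := LinearMap.finrank_le_finrank_of_injective hP
      rwa [Module.finrank_fintype_fun_eq_card, Fintype.card_fin] at h1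
    -- the span of the rows
    have hspan : Submodule.span F (Set.range (fun i => row q w (e i))) = D := by
      apply Submodule.eq_of_le_of_finrank_le
      · rw [Submodule.span_le]
        rintro _ ⟨i, rfl⟩
        show _ ∈ LinearMap.ker T
        rw [LinearMap.mem_ker]
        funext s
        rw [hT, Pi.zero_apply]
        exact row_parity w (e i) s.2
      · rw [finrank_span_eq_card hrow, Fintype.card_fin]
        exact hD
    -- the Gabidulin code
    let E : (Fin k → F) →ₗ[F] (Fin n → F) := LinearMap.pi (fun j =>
      ∑ t : Fin k, (g j ^ q ^ (t : ℕ)) • LinearMap.proj t)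
    have hE : ∀ f j, E f j = ∑ t, f t * g j ^ q ^ (t : ℕ) := by
      intro f j
      simp only [E, LinearMap.pi_apply, LinearMap.sum_apply, LinearMap.smul_apply,
        LinearMap.proj_apply, smul_eq_mul]
      exact Finset.sum_congr rfl (fun t _ => mul_comm _ _)
    have hEinj : Function.Injective E := by
      rw [← LinearMap.ker_eq_bot, LinearMap.ker_eq_bot']
      intro f hf
      have h1 := root_count K univ g hg k (by simp; omega)
        (fun t => if h : t < k then f ⟨t, h⟩ else 0) (by
          intro j _
          have h2 := congrFun hf j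
          rw [hE, Pi.zero_apply] at h2
          rw [Finset.sum_range, ← h2]
          apply Finset.sum_congr rfl
          intro t _
          rw [dif_pos t.2, hq])
      funext t
      have h2 := h1 t.1 t.2
      rw [dif_pos t.2] at h2
      exact h2
    have hrange : LinearMap.range E = D := by
      apply Submodule.eq_of_le_of_finrank_le
      · rintro _ ⟨f, rfl⟩
        show _ ∈ LinearMap.ker T
        rw [LinearMap.mem_ker]
        funext s
        rw [hT, Pi.zero_apply]
        simp only [hE, Finset.sum_mul]
        rw [Finset.sum_comm]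
        apply Finset.sum_eq_zero
        intro t _
        have h1 := hpar t t.2 s s.2
        have h2 : ∀ j ∈ univ, f t * g j ^ q ^ (t : ℕ) * w j ^ q ^ (s : ℕ)
            = f t * (g j ^ Fintype.card K ^ (t : ℕ) * w j ^ Fintype.card K ^ (s : ℕ)) :=
          fun j _ => by rw [hq]; ring
        rw [Finset.sum_congr rfl h2, ← Finset.mul_sum, h1, mul_zero]
      · rw [LinearMap.finrank_range_of_inj hEinj, Module.finrank_fintype_fun_eq_card,
          Fintype.card_fin]
        exact hD
    have hset : (LinearMap.range E : Set (Fin n → F)) = gabidulin q k g := by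
      ext c
      constructor
      · rintro ⟨f, rfl⟩
        exact ⟨f, fun j => hE f j⟩
      · rintro ⟨f, hf⟩
        refine ⟨f, ?_⟩
        funext j
        rw [hE, hf j]
    show (Submodule.span F (Set.range (fun i => row q w (e i))) : Set (Fin n → F)) = _
    rw [hspan, ← hrange, hset]
  · intro i j hj
    show row q w (e i) j = 0
    apply row_eq_zero
    intro l hl
    apply heZ i l
    rw [hl]
    exact hsub i hj

end Pool.Agent.Results.MP_aa6dd4_lc.GabidulinSupport
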